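import Pool.Agent.Helper83.PT.St6

set_option autoImplicit false

/-! Project PT (helper83), MP_26f0da_lc: module RK (helper78): derivations without turns have rank 2. -/

namespace Pool.Agent.Helper83.PT.Helper78

open Pool.Agent.Helper73.DC
open Finset
open scoped Classical

private theorem ev_stuck (lf cl : ℕ → ℕ) (rs : ℕ → ℕ → ℕ) (wt : ℕ → ℕ) (x v m k : ℕ) (h : Ev lf cl rs wt x v m k) :
    lf x = 0 → cl x = x → False := by
  induction h with
  | leaf x r hl => intro h0 _; omega
  | node x r1 m1 n1 r2 m2 n2 h0 hc hr ih1 ih2 =>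
    intro h0' hcl
    exact ih1 (by rw [hcl]; exact h0') (by rw [hcl]; exact hcl)

private theorem ev_leaf (lf cl : ℕ → ℕ) (rs : ℕ → ℕ → ℕ) (wt : ℕ → ℕ) (x v m k r : ℕ) (h : Ev lf cl rs wt x v m k)
    (hl : lf x = r + 1) : v = r := by
  cases h with
  | leaf _ _ hl' => omega
  | node _ r1 m1 n1 r2 m2 n2 h0 hc hr => omega

private theorem ev_wt (lf cl : ℕ → ℕ) (rs : ℕ → ℕ → ℕ) (wt : ℕ → ℕ) (x v m k : ℕ) (h : Ev lf cl rs wt x v m k)
    (hm : m = 0) : wt x = 0 := by
  cases h with
  | leaf _ _ hl' => exact hm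
  | node _ r1 m1 n1 r2 m2 n2 h0 hc hr => omega

/-- The node of a state, a flag, a stack word and positions. -/
private def nd {α : Type} (M : MPDA α) (num : M.Q × Bool → List M.Γ → ℕ) (n : ℕ) (q : M.Q) (u : Bool) (β : List M.Γ)
    (p : Fin M.k → ℕ) : ℕ := mnd (aug M) num n (q, u) β p

/-- The kinds of the nodes of `aug M`. -/
private theorem kinds (h3 : StG3) {α : Type} [Fintype α] (M : MPDA α) (T : MTab) (K : ℕ) (num : M.Q × Bool → List M.Γ → ℕ)
    (qn : M.Q × Bool → ℕ) (hD : MDesc (aug M) T K num qn) (w : List α) (p : Fin M.k → ℕ) (hp : ∀ j, p j ≤ w.length + 1) :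
    (∀ (q : M.Q) (u : Bool) (β : List M.Γ), β.length ≤ K → M.acc q → T.lf w (nd M num w.length q u β p) = 1) ∧
    (∀ (q : M.Q) (u : Bool), ¬ M.acc q → T.lf w (nd M num w.length q u [] p) =
      qn (q, u) * (w.length + 2) ^ M.k + pcd w.length p + 2) ∧
    (∀ (q : M.Q) (u : Bool) (Z : M.Γ) (q' : M.Q) (d : Fin M.k → Mv) (γ : List M.Γ), ¬ M.acc q →
      M.tr q Z (fun j => symAt w (p j)) = some (q', d, γ) →
      T.lf w (nd M num w.length q u [Z] p) = 0 ∧ T.cl w (nd M num w.length q u [Z] p) = T.ac w.length ∧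
      T.rs w (nd M num w.length q u [Z] p) 0 = nd M num w.length q' (fl γ u) γ (nps w d p)) ∧
    (∀ (q : M.Q) (u : Bool) (Z : M.Γ), ¬ M.acc q → M.tr q Z (fun j => symAt w (p j)) = none →
      T.lf w (nd M num w.length q u [Z] p) = 0 ∧
      T.cl w (nd M num w.length q u [Z] p) = nd M num w.length q u [Z] p) ∧
    (∀ (q : M.Q) (u : Bool) (Z Y : M.Γ) (β : List M.Γ), (Z :: Y :: β).length ≤ K → ¬ M.acc q →
      T.lf w (nd M num w.length q u (Z :: Y :: β) p) = 0 ∧
      T.cl w (nd M num w.length q u (Z :: Y :: β) p) = nd M num w.length q u [Z] p ∧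
      T.rs w (nd M num w.length q u (Z :: Y :: β) p) 0 = T.ac w.length ∧
      ∀ (q' : M.Q) (u' : Bool) (p' : Fin M.k → ℕ), (∀ j, p' j ≤ w.length + 1) →
        T.rs w (nd M num w.length q u (Z :: Y :: β) p)
          (qn (q', u') * (w.length + 2) ^ M.k + pcd w.length p' + 1) = nd M num w.length q' u' (Y :: β) p') ∧
    T.lf w (T.ac w.length) = 1 := by
  obtain ⟨h1, h2, h4, h5, h6, h7⟩ := h3 (aug M) T K num qn hD w p hp
  refine ⟨fun q u β hβ ha => h1 (q, u) β hβ ha, fun q u ha => h2 (q, u) ha, ?_, ?_, ?_, h7⟩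
  · intro q u Z q' d γ ha htr
    refine h4 (q, u) Z (q', fl γ u) d γ ha ?_
    have e : (aug M).tr (q, u) Z (fun j => symAt w (p j)) =
      (match M.tr q Z (fun j => symAt w (p j)) with
        | none => none
        | some (q', d, γ) => some ((q', fl γ u), d, γ)) := rfl
    rw [e, htr]
  · intro q u Z ha htr
    refine h5 (q, u) Z ha ?_
    have e : (aug M).tr (q, u) Z (fun j => symAt w (p j)) =
      (match M.tr q Z (fun j => symAt w (p j)) with
        | none => none
        | some (q', d, γ) => some ((q', fl γ u), d, γ)) := rfl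
    rw [e, htr]
  · intro q u Z Y β hβ ha
    obtain ⟨a, b, c, d⟩ := h6 (q, u) Z Y β hβ ha
    exact ⟨a, b, c, fun q' u' p' hp' => d (q', u') p' hp'⟩

section

variable {α : Type} [Fintype α] (M : MPDA α) (T : MTab) (K : ℕ) (num : M.Q × Bool → List M.Γ → ℕ) (qn : M.Q × Bool → ℕ)

/-- Claim (A). -/
private theorem clA (h3 : StG3) (hW : StW) (hD : MDesc (aug M) T K num qn) (w : List α) (x r m n : ℕ)
    (h : Ev (T.lf w) (T.cl w) (T.rs w) (wtT M T K num w) x r m n) :
    m = 0 → ∀ (q : M.Q) (u : Bool) (β : List M.Γ) (p : Fin M.k → ℕ), β.length ≤ K → (∀ j, p j ≤ w.length + 1) →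
      x = nd M num w.length q u β p → r ≠ 0 → β ≠ [] →
      u = false ∧ ∃ (q' : M.Q) (p' : Fin M.k → ℕ), (∀ j, p' j ≤ w.length + 1) ∧
        r = qn (q', false) * (w.length + 2) ^ M.k + pcd w.length p' + 1 := by
  obtain ⟨hw1, hw2, hw3, hw4, hw5⟩ := hW M T K num qn hD w
  have hac : ∀ r m n, Ev (T.lf w) (T.cl w) (T.rs w) (wtT M T K num w) (T.ac w.length) r m n → r = 0 := by
    intro r m n h
    obtain ⟨_, _, _, _, _, h7⟩ := kinds h3 M T K num qn hD w (fun _ => 0) (fun _ => Nat.zero_le _)
    exact ev_leaf _ _ _ _ _ _ _ _ 0 h (by rw [h7])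
  induction h with
  | leaf x r hl =>
    intro _ q u β p hβ hp hx hr0 hβ0
    obtain ⟨h1, h2, h4, h5, h6, h7⟩ := kinds h3 M T K num qn hD w p hp
    exfalso
    by_cases hacc : M.acc q
    · have e1 := h1 q u β hβ hacc
      rw [← hx, hl] at e1
      omega
    · match β, hβ, hx, hβ0 with
      | [], _, _, hβ0 => exact hβ0 rfl
      | [Z], _, hx, _ =>
        rcases htr : M.tr q Z (fun j => symAt w (p j)) with _ | ⟨q', d, γ⟩
        · have := (h5 q u Z hacc htr).1
          rw [← hx, hl] at this
          omega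
        · have := (h4 q u Z q' d γ hacc htr).1
          rw [← hx, hl] at this
          omega
      | Z :: Y :: β', hβ, hx, _ =>
        have := (h6 q u Z Y β' hβ hacc).1
        rw [← hx, hl] at this
        omega
  | node x r1 m1 n1 r2 m2 n2 h0 hc hr ih1 ih2 =>
    intro hm q u β p hβ hp hx hr0 hβ0
    have hm1 : m1 = 0 := by omega
    have hm2 : m2 = 0 := by omega
    have hwx : wtT M T K num w x = 0 := by omega
    obtain ⟨h1, h2, h4, h5, h6, h7⟩ := kinds h3 M T K num qn hD w p hp
    by_cases hacc : M.acc q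
    · exfalso
      have e1 := h1 q u β hβ hacc
      rw [← hx, h0] at e1
      omega
    · match β, hβ, hx, hβ0 with
      | [], _, _, hβ0 => exact absurd rfl hβ0
      | [Z], _, hx, _ =>
        rcases htr : M.tr q Z (fun j => symAt w (p j)) with _ | ⟨q', d, γ⟩
        · exfalso
          have e2 := (h5 q u Z hacc htr).2
          rw [← hx] at e2
          exact ev_stuck _ _ _ _ _ _ _ _ (Ev.node x r1 m1 n1 r2 m2 n2 h0 hc hr) h0 e2
        · obtain ⟨_, e2, e3⟩ := h4 q u Z q' d γ hacc htr
          have e4 : wtT M T K num w (nd M num w.length q u [Z] p) = tu γ u := hw4 q u Z p q' d γ hp hacc htr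
          rw [← hx] at e2 e3 e4
          rw [e2] at hc
          have hr1 := hac _ _ _ hc
          have hγ : γ.length ≤ K := by
            refine hD.hKt (q, u) Z (fun j => symAt w (p j)) (q', fl γ u) d γ ?_
            have e : (aug M).tr (q, u) Z (fun j => symAt w (p j)) =
              (match M.tr q Z (fun j => symAt w (p j)) with
                | none => none
                | some (q', d, γ) => some ((q', fl γ u), d, γ)) := rfl
            rw [e, htr]
          have hnp : ∀ j, nps w d p j ≤ w.length + 1 := fun j => min_le_right _ _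
          have htu : tu γ u = 0 := by rw [← e4]; exact hwx
          by_cases hγ0 : γ = []
          · subst hγ0
            have hu : u = false := by
              cases u with
              | false => rfl
              | true => simp [tu] at htu
            refine ⟨hu, ?_⟩
            subst hu
            rw [hr1, e3] at hr
            have ef : fl ([] : List M.Γ) false = false := rfl
            rw [ef] at hr
            obtain ⟨g1, g2, _, _, _, _⟩ := kinds h3 M T K num qn hD w (nps w d p) hnp
            by_cases hacc' : M.acc q'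
            · exfalso
              have := ev_leaf _ _ _ _ _ _ _ _ 0 hr (by rw [g1 q' false [] (Nat.zero_le _) hacc'])
              exact hr0 this
            · have := ev_leaf _ _ _ _ _ _ _ _ (qn (q', false) * (w.length + 2) ^ M.k + pcd w.length (nps w d p) + 1) hr
                (by rw [g2 q' false hacc'])
              exact ⟨q', nps w d p, hnp, this⟩
          · obtain ⟨j1, j2⟩ := ih2 hm2 q' (fl γ u) γ (nps w d p) hγ hnp (by rw [hr1, e3]) hr0 hγ0
            refine ⟨?_, j2⟩
            unfold fl at j1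
            rw [if_neg hγ0] at j1
            by_cases h2γ : 2 ≤ γ.length
            · rw [if_pos h2γ] at j1
              exact absurd j1 (by decide)
            · rw [if_neg h2γ] at j1
              exact j1
      | Z :: Y :: β', hβ, hx, _ =>
        obtain ⟨_, e2, e4, e5⟩ := h6 q u Z Y β' hβ hacc
        rw [← hx] at e2 e4 e5
        by_cases hr1 : r1 = 0
        · exfalso
          rw [hr1, e4] at hr
          exact hr0 (hac _ _ _ hr)
        · obtain ⟨k1, q1, p1, k2, k3⟩ := ih1 hm1 q u [Z] p (by simpa using hD.hK) hp e2 hr1 (by simp)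
          have hβ2 : (Y :: β').length ≤ K := by
            simp only [List.length_cons] at hβ ⊢
            omega
          obtain ⟨l1, l2⟩ := ih2 hm2 q1 false (Y :: β') p1 hβ2 k2 (by rw [k3, e5 q1 false p1 k2]) hr0 (by simp)
          exact ⟨k1, l2⟩

/-- Claim (B). -/
private theorem clB (h3 : StG3) (hW : StW) (hD : MDesc (aug M) T K num qn) (w : List α) (x r m n : ℕ)
    (h : Ev (T.lf w) (T.cl w) (T.rs w) (wtT M T K num w) x r m n) :
    m = 0 → ∀ (q : M.Q) (u : Bool) (β : List M.Γ) (p : Fin M.k → ℕ), β.length ≤ K → (∀ j, p j ≤ w.length + 1) →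
      x = nd M num w.length q u β p → (u = true ∨ β.length ≤ 1) →
      ∃ c ≤ 1, EvR (T.lf w) (T.cl w) (T.rs w) 0 x r c := by
  obtain ⟨hw1, hw2, hw3, hw4, hw5⟩ := hW M T K num qn hD w
  have hlac : T.lf w (T.ac w.length) = 1 := by
    obtain ⟨_, _, _, _, _, h7⟩ := kinds h3 M T K num qn hD w (fun _ => 0) (fun _ => Nat.zero_le _)
    exact h7
  have hac : ∀ r m n, Ev (T.lf w) (T.cl w) (T.rs w) (wtT M T K num w) (T.ac w.length) r m n → r = 0 := by
    intro r m n h
    exact ev_leaf _ _ _ _ _ _ _ _ 0 h (by rw [hlac])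
  induction h with
  | leaf x r hl =>
    intro _ q u β p hβ hp hx _
    exact ⟨0, by omega, EvR.leaf 0 x r hl⟩
  | node x r1 m1 n1 r2 m2 n2 h0 hc hr ih1 ih2 =>
    intro hm q u β p hβ hp hx hub
    have hm1 : m1 = 0 := by omega
    have hm2 : m2 = 0 := by omega
    have hwx : wtT M T K num w x = 0 := by omega
    obtain ⟨h1, h2, h4, h5, h6, h7⟩ := kinds h3 M T K num qn hD w p hp
    by_cases hacc : M.acc q
    · exfalso
      have e1 := h1 q u β hβ hacc
      rw [← hx, h0] at e1
      omega
    · match β, hβ, hx, hub with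
      | [], _, hx, _ =>
        exfalso
        have e1 := h2 q u hacc
        rw [← hx, h0] at e1
        omega
      | [Z], _, hx, _ =>
        rcases htr : M.tr q Z (fun j => symAt w (p j)) with _ | ⟨q', d, γ⟩
        · exfalso
          have e2 := (h5 q u Z hacc htr).2
          rw [← hx] at e2
          exact ev_stuck _ _ _ _ _ _ _ _ (Ev.node x r1 m1 n1 r2 m2 n2 h0 hc hr) h0 e2
        · obtain ⟨_, e2, e3⟩ := h4 q u Z q' d γ hacc htr
          rw [← hx] at e2 e3
          have hr1 : r1 = 0 := by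
            rw [e2] at hc
            exact hac _ _ _ hc
          have hγ : γ.length ≤ K := by
            refine hD.hKt (q, u) Z (fun j => symAt w (p j)) (q', fl γ u) d γ ?_
            have e : (aug M).tr (q, u) Z (fun j => symAt w (p j)) =
              (match M.tr q Z (fun j => symAt w (p j)) with
                | none => none
                | some (q', d, γ) => some ((q', fl γ u), d, γ)) := rfl
            rw [e, htr]
          have hnp : ∀ j, nps w d p j ≤ w.length + 1 := fun j => min_le_right _ _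
          have hfl : fl γ u = true ∨ γ.length ≤ 1 := by
            by_cases h2γ : 2 ≤ γ.length
            · left
              unfold fl
              rw [if_neg (by rintro rfl; simp at h2γ), if_pos h2γ]
            · right
              omega
          obtain ⟨c2, hc2, j2⟩ := ih2 hm2 q' (fl γ u) γ (nps w d p) hγ hnp (by rw [hr1, e3]) hfl
          refine ⟨max 1 (0 + c2), by omega, ?_⟩
          refine EvR.node 0 x r1 0 r2 c2 h0 ?_ j2
          rw [e2, hr1]
          exact EvR.leaf 0 _ 0 (by rw [hlac])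
      | Z :: Y :: β', hβ, hx, hub =>
        obtain ⟨_, e2, e4, e5⟩ := h6 q u Z Y β' hβ hacc
        rw [← hx] at e2 e4 e5
        have hu : u = true := by
          rcases hub with hub | hub
          · exact hub
          · simp at hub
        have hr1 : r1 = 0 := by
          by_contra hr1
          obtain ⟨k1, _⟩ := clA M T K num qn h3 hW hD w _ _ _ _ hc hm1 q u [Z] p (by simpa using hD.hK) hp e2 hr1 (by simp)
          rw [hu] at k1
          exact absurd k1 (by decide)
        obtain ⟨c1, hc1, j1⟩ := ih1 hm1 q u [Z] p (by simpa using hD.hK) hp e2 (Or.inr (by simp))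
        refine ⟨max 1 (c1 + 0), by omega, ?_⟩
        refine EvR.node 0 x r1 c1 r2 0 h0 j1 ?_
        rw [hr1, e4] at hr ⊢
        rw [hac _ _ _ hr]
        exact EvR.leaf 0 _ 0 (by rw [hlac])

/-- Claim (C). -/
private theorem clC (h3 : StG3) (hW : StW) (hD : MDesc (aug M) T K num qn) (w : List α) (x r m n : ℕ)
    (h : Ev (T.lf w) (T.cl w) (T.rs w) (wtT M T K num w) x r m n) :
    m = 0 → ∀ (q : M.Q) (u : Bool) (β : List M.Γ) (p : Fin M.k → ℕ), β.length ≤ K → (∀ j, p j ≤ w.length + 1) →
      x = nd M num w.length q u β p →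
      ∃ c ≤ 1, EvR (T.lf w) (T.cl w) (T.rs w) 1 x r c := by
  have hlac : T.lf w (T.ac w.length) = 1 := by
    obtain ⟨_, _, _, _, _, h7⟩ := kinds h3 M T K num qn hD w (fun _ => 0) (fun _ => Nat.zero_le _)
    exact h7
  have hac : ∀ r m n, Ev (T.lf w) (T.cl w) (T.rs w) (wtT M T K num w) (T.ac w.length) r m n → r = 0 := by
    intro r m n h
    exact ev_leaf _ _ _ _ _ _ _ _ 0 h (by rw [hlac])
  induction h with
  | leaf x r hl =>
    intro _ q u β p hβ hp hx
    exact ⟨0, by omega, EvR.leaf 1 x r hl⟩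
  | node x r1 m1 n1 r2 m2 n2 h0 hc hr ih1 ih2 =>
    intro hm q u β p hβ hp hx
    have hm1 : m1 = 0 := by omega
    have hm2 : m2 = 0 := by omega
    obtain ⟨h1, h2, h4, h5, h6, h7⟩ := kinds h3 M T K num qn hD w p hp
    by_cases hub : u = true ∨ β.length ≤ 1
    · obtain ⟨c, hc1, hE⟩ := clB M T K num qn h3 hW hD w _ _ _ _ (Ev.node x r1 m1 n1 r2 m2 n2 h0 hc hr) hm q u β p hβ hp hx hub
      exact ⟨0, by omega, EvR.up 0 x r2 c hE hc1⟩
    · by_cases hacc : M.acc q
      · exfalso
        have e1 := h1 q u β hβ hacc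
        rw [← hx, h0] at e1
        omega
      · match β, hβ, hx, hub with
        | [], _, _, hub => exact absurd (Or.inr (by simp)) hub
        | [Z], _, _, hub => exact absurd (Or.inr (by simp)) hub
        | Z :: Y :: β', hβ, hx, hub =>
          obtain ⟨_, e2, e4, e5⟩ := h6 q u Z Y β' hβ hacc
          rw [← hx] at e2 e4 e5
          obtain ⟨c, hc1, hE⟩ := clB M T K num qn h3 hW hD w _ _ _ _ hc hm1 q u [Z] p (by simpa using hD.hK) hp e2
            (Or.inr (by simp))
          have hE1 := EvR.up 0 _ _ c hE hc1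
          by_cases hr1 : r1 = 0
          · refine ⟨max 1 (0 + 0), by omega, ?_⟩
            refine EvR.node 1 x r1 0 r2 0 h0 hE1 ?_
            rw [hr1, e4] at hr ⊢
            rw [hac _ _ _ hr]
            exact EvR.leaf 1 _ 0 (by rw [hlac])
          · obtain ⟨k1, q1, p1, k2, k3⟩ := clA M T K num qn h3 hW hD w _ _ _ _ hc hm1 q u [Z] p (by simpa using hD.hK) hp e2 hr1
              (by simp)
            have hβ2 : (Y :: β').length ≤ K := by
              simp only [List.length_cons] at hβ ⊢
              omega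
            obtain ⟨c2, hc2, j2⟩ := ih2 hm2 q1 false (Y :: β') p1 hβ2 k2 (by rw [k3, e5 q1 false p1 k2])
            exact ⟨max 1 (0 + c2), by omega, EvR.node 1 x r1 0 r2 c2 h0 hE1 j2⟩

end

theorem mRK : StG3 → StW → StRK := by
  intro h3 hW
  intro α _ M T K num qn hD w x r n h
  obtain ⟨hw1, hw2, hw3, hw4, hw5⟩ := hW M T K num qn hD w
  have hwx := ev_wt _ _ _ _ _ _ _ _ h rfl
  rcases hw5 x hwx with hx | ⟨q, u, β, p, hβ, hp, hx⟩
  · obtain ⟨_, _, _, _, _, h7⟩ := kinds h3 M T K num qn hD w (fun _ => 0) (fun _ => Nat.zero_le _)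
    subst hx
    have := ev_leaf _ _ _ _ _ _ _ _ 0 h (by rw [h7])
    subst this
    exact EvR.leaf 2 _ 0 (by rw [h7])
  · obtain ⟨c, hc, hE⟩ := clC M T K num qn h3 hW hD w _ _ _ _ h rfl q u β p hβ hp hx
    exact EvR.up 1 x r c hE hc

end Pool.Agent.Helper83.PT.Helper78
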